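import Mathlib

/-!
Synchronous automata on tuples of words (padded with `none`), and closure of the class of
automatic relations under first-order operations.
-/

namespace Pool.Agent.H20

/-- A finite synchronous automaton on `ι`-tuples of words over `A`.  It reads the padded
letters `ι → Option A` and ignores the letter consisting only of padding. -/
structure Aut (A ι : Type) where
  Q : Type
  fin : Finite Q
  step : Q → (ι → Option A) → Q
  start : Q
  acc : Q → Prop
  frz : ∀ q, step q (fun _ => none) = q

variable {A ι κ : Type}

/-- State after reading `t` padded letters. -/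
def Aut.run (M : Aut A ι) (w : ι → List A) : ℕ → M.Q
  | 0 => M.start
  | t + 1 => M.step (M.run w t) fun i => (w i)[t]?

lemma Aut.run_succ (M : Aut A ι) (w : ι → List A) (t : ℕ) :
    M.run w (t + 1) = M.step (M.run w t) fun i => (w i)[t]? := rfl

lemma Aut.run_stable (M : Aut A ι) (w : ι → List A) (t s : ℕ) (h : ∀ i, (w i).length ≤ t) :
    M.run w (t + s) = M.run w t := by
  induction s with
  | zero => rfl
  | succ s ih =>
    rw [← Nat.add_assoc, Aut.run_succ, ih]
    have : (fun i => (w i)[t + s]?) = fun _ => none := by
      funext i
      rw [List.getElem?_eq_none_iff]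
      have := h i
      omega
    rw [this, M.frz]

lemma Aut.run_stable' (M : Aut A ι) (w : ι → List A) (t s : ℕ) (h : ∀ i, (w i).length ≤ t)
    (h' : ∀ i, (w i).length ≤ s) : M.run w t = M.run w s := by
  rcases le_total t s with hts | hts
  · obtain ⟨d, rfl⟩ := Nat.exists_eq_add_of_le hts
    exact (M.run_stable w t d h).symm
  · obtain ⟨d, rfl⟩ := Nat.exists_eq_add_of_le hts
    exact M.run_stable w s d h'

lemma Aut.run_congr (M : Aut A ι) (w w' : ι → List A) (t : ℕ)
    (h : ∀ s < t, ∀ i, (w i)[s]? = (w' i)[s]?) : M.run w t = M.run w' t := by
  induction t with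
  | zero => rfl
  | succ t ih =>
    rw [Aut.run_succ, Aut.run_succ, ih fun s hs i => h s (by omega) i]
    congr 1
    funext i
    exact h t (by omega) i

/-- If the letters of `w'` from time `a` on are those of `w` from time `b` on, and the states
agree, then they agree later too. -/
lemma Aut.run_shift (M : Aut A ι) (w w' : ι → List A) (a b : ℕ) (h0 : M.run w' a = M.run w b)
    (h : ∀ s i, (w' i)[a + s]? = (w i)[b + s]?) (s : ℕ) :
    M.run w' (a + s) = M.run w (b + s) := by
  induction s with
  | zero => exact h0
  | succ s ih =>
    rw [← Nat.add_assoc, ← Nat.add_assoc, Aut.run_succ, Aut.run_succ, ih]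
    congr 1
    funext i
    exact h s i

/-- A relation on tuples of words is automatic. -/
def IsAut (R : (ι → List A) → Prop) : Prop :=
  ∃ M : Aut A ι, ∀ (w : ι → List A) (t : ℕ), (∀ i, (w i).length ≤ t) →
    (M.acc (M.run w t) ↔ R w)

lemma IsAut.congr {R S : (ι → List A) → Prop} (h : IsAut R) (hRS : ∀ w, R w ↔ S w) :
    IsAut S := by
  obtain ⟨M, hM⟩ := h
  exact ⟨M, fun w t ht => (hM w t ht).trans (hRS w)⟩

lemma IsAut.not {R : (ι → List A) → Prop} (h : IsAut R) : IsAut fun w => ¬ R w := by
  obtain ⟨M, hM⟩ := h
  refine ⟨⟨M.Q, M.fin, M.step, M.start, fun q => ¬ M.acc q, M.frz⟩, fun w t ht => ?_⟩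
  have e : ∀ s, Aut.run (⟨M.Q, M.fin, M.step, M.start, fun q => ¬ M.acc q, M.frz⟩ : Aut A ι) w s
      = M.run w s := by
    intro s
    induction s with
    | zero => rfl
    | succ s ih => rw [Aut.run_succ, ih]; rfl
  rw [e]
  exact not_congr (hM w t ht)

/-- Closure under finite conjunctions. -/
lemma IsAut.pi [Finite κ] {R : κ → (ι → List A) → Prop} (h : ∀ k, IsAut (R k)) :
    IsAut fun w => ∀ k, R k w := by
  choose M hM using h
  have hf : ∀ k, Finite (M k).Q := fun k => (M k).fin
  let P : Aut A ι :=
    { Q := ∀ k, (M k).Q
      fin := inferInstance
      step := fun q a k => (M k).step (q k) a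
      start := fun k => (M k).start
      acc := fun q => ∀ k, (M k).acc (q k)
      frz := fun q => by funext k; exact (M k).frz _ }
  have e : ∀ w s k, P.run w s k = (M k).run w s := by
    intro w s k
    induction s with
    | zero => rfl
    | succ s ih => rw [Aut.run_succ, Aut.run_succ, ← ih]
  refine ⟨P, fun w t ht => ?_⟩
  change (∀ k, (M k).acc (P.run w t k)) ↔ _
  refine forall_congr' fun k => ?_
  rw [e]
  exact hM k w t ht

lemma IsAut.and {R S : (ι → List A) → Prop} (hR : IsAut R) (hS : IsAut S) :
    IsAut fun w => R w ∧ S w := by
  have : IsAut fun w => ∀ b : Bool, (bif b then R else S) w := by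
    apply IsAut.pi
    intro b
    cases b
    · exact hS
    · exact hR
  refine this.congr fun w => ?_
  constructor
  · intro h; exact ⟨h true, h false⟩
  · rintro ⟨h1, h2⟩ b
    cases b
    · exact h2
    · exact h1

lemma IsAut.or {R S : (ι → List A) → Prop} (hR : IsAut R) (hS : IsAut S) :
    IsAut fun w => R w ∨ S w :=
  (hR.not.and hS.not).not.congr fun w => by tauto

lemma IsAut.imp {R S : (ι → List A) → Prop} (hR : IsAut R) (hS : IsAut S) :
    IsAut fun w => R w → S w :=
  (hR.and hS.not).not.congr fun w => by tauto

/-- Closure under finite disjunctions. -/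
lemma IsAut.sigma [Finite κ] {R : κ → (ι → List A) → Prop} (h : ∀ k, IsAut (R k)) :
    IsAut fun w => ∃ k, R k w :=
  (IsAut.pi fun k => (h k).not).not.congr fun w => by
    constructor
    · intro hn
      by_contra hc
      exact hn fun k hk => hc ⟨k, hk⟩
    · rintro ⟨k, hk⟩ hn
      exact hn k hk

/-- Closure under change of variables. -/
lemma IsAut.comap {R : (ι → List A) → Prop} (h : IsAut R) (f : ι → κ) :
    IsAut fun w : κ → List A => R (w ∘ f) := by
  obtain ⟨M, hM⟩ := h
  let P : Aut A κ :=
    { Q := M.Q
      fin := M.fin
      step := fun q a => M.step q (a ∘ f)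
      start := M.start
      acc := M.acc
      frz := fun q => M.frz q }
  have e : ∀ w s, P.run w s = M.run (w ∘ f) s := by
    intro w s
    induction s with
    | zero => rfl
    | succ s ih => rw [Aut.run_succ, Aut.run_succ, ih]; rfl
  refine ⟨P, fun w t ht => ?_⟩
  change M.acc (P.run w t) ↔ _
  rw [e]
  exact hM _ t fun i => ht (f i)

/-- combine a hidden word and visible words -/
def ocons (u : List A) (w : ι → List A) : Option ι → List A := fun o => o.elim u w

/-- run on the hidden word after the visible words ended -/
def Aut.tail (M : Aut A (Option ι)) (q : M.Q) (v : List A) : M.Q :=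
  v.foldl (fun q x => M.step q fun o => o.elim (some x) fun _ => none) q

lemma Aut.tail_run (M : Aut A (Option ι)) (w : ι → List A) (u : List A) (T : ℕ)
    (hT : ∀ i, (w i).length ≤ T) (v : List A) (hv : u.drop T = v) :
    M.tail (M.run (ocons u w) T) v = M.run (ocons u w) (T + v.length) := by
  induction v generalizing T with
  | nil => rfl
  | cons x v ih =>
    have h1 : u[T]? = some x := by
      have : (u.drop T)[0]? = some x := by rw [hv]; rfl
      rwa [List.getElem?_drop, Nat.add_zero] at this
    have h2 : u.drop (T + 1) = v := by
      rw [← List.drop_drop, hv]; rfl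
    have h3 := ih (T + 1) (fun i => (hT i).trans (by omega)) h2
    have h4 : M.run (ocons u w) (T + 1) =
        M.step (M.run (ocons u w) T) fun o => o.elim (some x) fun _ => none := by
      rw [Aut.run_succ]
      congr 1
      funext o
      cases o with
      | none => exact h1
      | some i =>
        change (w i)[T]? = none
        rw [List.getElem?_eq_none_iff]
        exact hT i
    rw [h4] at h3
    have e : T + (x :: v).length = T + 1 + v.length := by simp; omega
    rw [e, ← h3]
    rfl

/-- Closure under existential quantification. -/
lemma IsAut.ex [Finite ι] {R : (Option ι → List A) → Prop} (h : IsAut R) :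
    IsAut fun w : ι → List A => ∃ u : List A, R (ocons u w) := by
  classical
  obtain ⟨M, hM⟩ := h
  have := M.fin
  let P : Aut A ι :=
    { Q := Set (M.Q × Bool)
      fin := inferInstance
      step := fun S a => if a = (fun _ => none) then S else
        {p | ∃ (q : M.Q) (b : Bool) (x : Option A), (q, b) ∈ S ∧ (b = true → x = none) ∧
          p = (M.step q (fun o => o.elim x a), x.isNone)}
      start := {(M.start, false)}
      acc := fun S => ∃ (q : M.Q) (b : Bool) (v : List A), (q, b) ∈ S ∧ (b = true → v = []) ∧
        M.acc (M.tail q v)
      frz := fun S => by simp }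
  have inv : ∀ (w : ι → List A) (t : ℕ), (∀ s < t, ∃ i, s < (w i).length) →
      P.run w t = {p | ∃ u : List A, p.1 = M.run (ocons u w) t ∧ (p.2 = true ↔ u.length < t)} := by
    intro w t
    induction t with
    | zero =>
      intro _
      ext ⟨q, b⟩
      change (q, b) ∈ ({(M.start, false)} : Set (M.Q × Bool)) ↔ _
      rw [Set.mem_singleton_iff, Set.mem_ofPred_eq]
      constructor
      · intro h
        rw [Prod.mk.injEq] at h
        obtain ⟨rfl, rfl⟩ := h
        exact ⟨[], rfl, by simp⟩
      · rintro ⟨u, h1, h2⟩
        have h1' : q = M.start := h1
        have h2' : b = false := by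
          cases b
          · rfl
          · simp at h2
        rw [h1', h2']
    | succ t ih =>
      intro ht
      have ih' := ih fun s hs => ht s (by omega)
      obtain ⟨i₀, hi₀⟩ := ht t (by omega)
      have hne : (fun i => (w i)[t]?) ≠ fun _ => none := by
        intro hcon
        have := congrFun hcon i₀
        rw [List.getElem?_eq_none_iff] at this
        omega
      rw [Aut.run_succ]
      change (if (fun i => (w i)[t]?) = (fun _ => none) then _ else _) = _
      rw [if_neg hne, ih']
      ext ⟨p1, p2⟩
      rw [Set.mem_ofPred_eq, Set.mem_ofPred_eq]
      constructor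
      · rintro ⟨q, b, x, ⟨u, hu1, hu2⟩, hbx, hp⟩
        simp only at hu1 hu2
        rw [Prod.mk.injEq] at hp
        obtain ⟨rfl, rfl⟩ := hp
        by_cases hb : b = true
        · have hx := hbx hb
          have hlen := hu2.mp hb
          subst hx
          refine ⟨u, ?_, by simp; omega⟩
          simp only
          rw [Aut.run_succ, hu1]
          congr 1
          funext o
          cases o with
          | none =>
            change none = u[t]?
            rw [eq_comm, List.getElem?_eq_none_iff]
            omega
          | some i => rfl
        · have hlen : t ≤ u.length := by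
            by_contra hcon
            push Not at hcon
            exact hb (hu2.mpr hcon)
          have hlt : (u.take t).length = t := by rw [List.length_take]; omega
          refine ⟨u.take t ++ x.toList, ?_, ?_⟩
          · simp only
            rw [Aut.run_succ]
            have e1 : M.run (ocons (u.take t ++ x.toList) w) t = M.run (ocons u w) t := by
              apply Aut.run_congr
              intro s hs o
              cases o with
              | none =>
                change (u.take t ++ x.toList)[s]? = u[s]?
                rw [List.getElem?_append_left (by omega), List.getElem?_take_of_lt hs]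
              | some i => rfl
            rw [e1, ← hu1]
            congr 1
            funext o
            cases o with
            | none =>
              change x = (u.take t ++ x.toList)[t]?
              rw [List.getElem?_append_right (by omega), hlt, Nat.sub_self]
              cases x <;> rfl
            | some i => rfl
          · cases x with
            | none => simp
            | some a => simpa using hlen
      · rintro ⟨u, h1, h2⟩
        simp only at h1 h2
        refine ⟨M.run (ocons u w) t, decide (u.length < t), u[t]?, ⟨u, rfl, by simp⟩, ?_, ?_⟩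
        · intro hb
          rw [List.getElem?_eq_none_iff]
          have := of_decide_eq_true hb
          omega
        · rw [Prod.mk.injEq]
          constructor
          · rw [h1, Aut.run_succ]
            congr 1
            funext o
            cases o with
            | none => rfl
            | some i => rfl
          · rw [Bool.eq_iff_iff, h2, Option.isNone_iff_eq_none, List.getElem?_eq_none_iff]
            omega
  refine ⟨P, fun w t₀ ht₀ => ?_⟩
  -- minimal bounding time
  have hex : ∃ T, ∀ i, (w i).length ≤ T := ⟨t₀, ht₀⟩
  have hT := Nat.find_spec hex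
  have hTmin : ∀ s < Nat.find hex, ∃ i, s < (w i).length := by
    intro s hs
    have := Nat.find_min hex hs
    push Not at this
    exact this
  set T := Nat.find hex with hTdef
  rw [P.run_stable' w t₀ T ht₀ hT, inv w T hTmin]
  constructor
  · rintro ⟨q, b, v, ⟨u, hu1, hu2⟩, hbv, hacc⟩
    simp only at hu1 hu2
    by_cases hb : b = true
    · have hv := hbv hb
      subst hv
      have hlen := hu2.mp hb
      refine ⟨u, (hM (ocons u w) T ?_).mp ?_⟩
      · intro o
        cases o with
        | none => change u.length ≤ T; omega
        | some i => exact hT i
      · rw [← hu1]; exact hacc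
    · have hlen : T ≤ u.length := by
        by_contra hcon
        push Not at hcon
        exact hb (hu2.mpr hcon)
      have hlt : (u.take T).length = T := by rw [List.length_take]; omega
      have e1 : M.run (ocons (u.take T ++ v) w) T = M.run (ocons u w) T := by
        apply Aut.run_congr
        intro s hs o
        cases o with
        | none =>
          change (u.take T ++ v)[s]? = u[s]?
          rw [List.getElem?_append_left (by omega), List.getElem?_take_of_lt hs]
        | some i => rfl
      have e2 : (u.take T ++ v).drop T = v := by
        rw [List.drop_append, hlt, Nat.sub_self]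
        simp
      have e3 := M.tail_run w (u.take T ++ v) T hT v e2
      refine ⟨u.take T ++ v, (hM (ocons (u.take T ++ v) w) (T + v.length) ?_).mp ?_⟩
      · intro o
        cases o with
        | none => change (u.take T ++ v).length ≤ _; rw [List.length_append]; omega
        | some i => exact (hT i).trans (by omega)
      · rw [← e3, e1, ← hu1]
        exact hacc
  · rintro ⟨u, hu⟩
    refine ⟨M.run (ocons u w) T, decide (u.length < T), u.drop T, ⟨u, rfl, by simp⟩, ?_, ?_⟩
    · intro hb
      rw [List.drop_eq_nil_iff]
      have := of_decide_eq_true hb
      omega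
    · rw [M.tail_run w u T hT _ rfl]
      refine (hM (ocons u w) _ ?_).mpr hu
      intro o
      cases o with
      | none =>
        change u.length ≤ _
        rw [List.length_drop]; omega
      | some i => exact (hT i).trans (by omega)

/-- The length comparison is automatic. -/
lemma isAut_len (i j : ι) : IsAut fun w : ι → List A => (w i).length ≤ (w j).length := by
  let P : Aut A ι :=
    { Q := Bool
      fin := inferInstance
      step := fun q a => q && !((a i).isSome && (a j).isNone)
      start := true
      acc := fun q => q = true
      frz := fun q => by simp }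
  have inv : ∀ (w : ι → List A) (t : ℕ), P.run w t = true ↔
      ∀ s < t, ¬ (s < (w i).length ∧ (w j).length ≤ s) := by
    intro w t
    induction t with
    | zero => simp [Aut.run, P]
    | succ t ih =>
      rw [Aut.run_succ]
      change (P.run w t && !(((w i)[t]?).isSome && ((w j)[t]?).isNone)) = true ↔ _
      have k1 : (((w i)[t]?).isSome && ((w j)[t]?).isNone) = true ↔
          (t < (w i).length ∧ (w j).length ≤ t) := by
        rw [Bool.and_eq_true, Option.isSome_iff_ne_none, Option.isNone_iff_eq_none, ne_eq,
          List.getElem?_eq_none_iff, List.getElem?_eq_none_iff, not_le]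
      rw [Bool.and_eq_true, ih, Bool.not_eq_true', ← Bool.not_eq_true, k1]
      constructor
      · rintro ⟨h1, h2⟩ s hs
        rcases Nat.lt_succ_iff_lt_or_eq.mp hs with hlt | rfl
        · exact h1 s hlt
        · omega
      · intro h
        refine ⟨fun s hs => h s (by omega), ?_⟩
        have := h t (by omega)
        omega
  refine ⟨P, fun w t ht => ?_⟩
  change P.run w t = true ↔ _
  rw [inv]
  constructor
  · intro h
    by_contra hcon
    push Not at hcon
    exact h (w j).length (lt_of_lt_of_le hcon (ht i)) ⟨hcon, le_rfl⟩
  · rintro h s _ ⟨h1, h2⟩
    omega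

/-- Unary automatic predicates are eventually periodic. -/
lemma IsAut.periodic [Unique ι] {R : (ι → List A) → Prop} (h : IsAut R) (a : A) :
    ∃ p N₀, 0 < p ∧ ∀ n ≥ N₀, (R (fun _ => List.replicate n a) ↔
      R (fun _ => List.replicate (n + p) a)) := by
  obtain ⟨M, hM⟩ := h
  have := M.fin
  let f : M.Q → M.Q := fun q => M.step q fun _ => some a
  have hrun : ∀ n t, t ≤ n → M.run (fun _ => List.replicate n a) t = f^[t] M.start := by
    intro n t
    induction t with
    | zero => intro _; rfl
    | succ t ih =>
      intro ht
      rw [Aut.run_succ, ih (by omega), Function.iterate_succ_apply']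
      change _ = M.step _ _
      congr 1
      funext i
      rw [List.getElem?_replicate, if_pos (by omega)]
  have hR : ∀ n, R (fun _ => List.replicate n a) ↔ M.acc (f^[n] M.start) := by
    intro n
    rw [← hrun n n le_rfl]
    exact (hM _ n fun _ => by simp).symm
  obtain ⟨i, j, hij, heq⟩ : ∃ i j : ℕ, i ≠ j ∧ f^[i] M.start = f^[j] M.start :=
    Finite.exists_ne_map_eq_of_infinite fun n : ℕ => f^[n] M.start
  wlog hlt : i < j generalizing i j
  · exact this j i hij.symm heq.symm (by omega)
  refine ⟨j - i, i, by omega, fun n hn => ?_⟩
  rw [hR, hR]
  obtain ⟨d, rfl⟩ := Nat.exists_eq_add_of_le hn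
  have e1 : f^[i + d] M.start = f^[d] (f^[i] M.start) := by
    rw [← Function.iterate_add_apply, Nat.add_comm]
  have e2 : f^[i + d + (j - i)] M.start = f^[d] (f^[j] M.start) := by
    rw [← Function.iterate_add_apply]
    congr 1
    omega
  rw [e1, e2, heq]

/-- Pumping: one component can be chosen not much longer than all the others. -/
lemma IsAut.short [DecidableEq ι] {R : (ι → List A) → Prop} (h : IsAut R) (j : ι) :
    ∃ c : ℕ, ∀ (w : ι → List A) (m T : ℕ), (∀ i, (w i).length ≤ T) → R w →
      (∀ i, i ≠ j → (w i).length ≤ m) →
      ∃ v : List A, v.length ≤ m + c ∧ R (Function.update w j v) := by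
  classical
  obtain ⟨M, hM⟩ := h
  have := M.fin
  have := Fintype.ofFinite M.Q
  refine ⟨Fintype.card M.Q, ?_⟩
  -- strong induction on the length of the component `j`
  suffices H : ∀ (L : ℕ) (w : ι → List A) (m T : ℕ), (w j).length ≤ L →
      (∀ i, (w i).length ≤ T) → R w → (∀ i, i ≠ j → (w i).length ≤ m) →
      ∃ v : List A, v.length ≤ m + Fintype.card M.Q ∧ R (Function.update w j v) from
    fun w m T hT hR hm => H _ w m T le_rfl hT hR hm
  intro L
  induction L with
  | zero =>
    intro w m T hL hT hR hm
    exact ⟨w j, by omega, by rwa [Function.update_eq_self]⟩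
  | succ L ih =>
    intro w m T hL hT hR hm
    by_cases hshort : (w j).length ≤ m + Fintype.card M.Q
    · exact ⟨w j, hshort, by rwa [Function.update_eq_self]⟩
    push Not at hshort
    obtain ⟨s₁, s₂, hne, heq⟩ := Fintype.exists_ne_map_eq_of_card_lt
      (fun s : Fin (Fintype.card M.Q + 1) => M.run w (m + s)) (by simp)
    wlog hlt : (s₁ : ℕ) < s₂ generalizing s₁ s₂
    · refine this s₂ s₁ hne.symm heq.symm ?_
      have : (s₁ : ℕ) ≠ s₂ := fun h => hne (Fin.ext h)
      omega
    have hs₂ : (s₂ : ℕ) ≤ Fintype.card M.Q := by omega
    set a := m + (s₁ : ℕ) with ha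
    set b := m + (s₂ : ℕ) with hb
    let v := (w j).take a ++ (w j).drop b
    have hta : ((w j).take a).length = a := by rw [List.length_take]; omega
    have hvlen : v.length = (w j).length - (b - a) := by
      rw [List.length_append, hta, List.length_drop]; omega
    let w' := Function.update w j v
    have hwj : w' j = v := Function.update_self ..
    have hwi : ∀ i, i ≠ j → w' i = w i := fun i hi => Function.update_of_ne hi ..
    have e1 : M.run w' a = M.run w a := by
      apply Aut.run_congr
      intro s hs i
      by_cases hi : i = j
      · subst hi
        rw [hwj, List.getElem?_append_left (by omega), List.getElem?_take_of_lt hs]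
      · rw [hwi i hi]
    have e2 : ∀ s, M.run w' (a + s) = M.run w (b + s) := by
      apply Aut.run_shift
      · rw [e1]; exact heq
      · intro s i
        by_cases hi : i = j
        · subst hi
          rw [hwj, List.getElem?_append_right (by omega), hta, List.getElem?_drop]
          congr 1
          omega
        · rw [hwi i hi]
          have h1 : (w i)[a + s]? = none := by
            rw [List.getElem?_eq_none_iff]
            have := hm i hi
            omega
          have h2 : (w i)[b + s]? = none := by
            rw [List.getElem?_eq_none_iff]
            have := hm i hi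
            omega
          rw [h1, h2]
    have hTw' : ∀ i, (w' i).length ≤ a + T := by
      intro i
      by_cases hi : i = j
      · subst hi
        rw [hwj]
        have := hT i
        omega
      · rw [hwi i hi]
        have := hT i
        omega
    have hR' : R w' := by
      refine (hM w' (a + T) hTw').mp ?_
      rw [e2]
      exact (hM w (b + T) fun i => (hT i).trans (by omega)).mpr hR
    obtain ⟨v', hv', hRv'⟩ := ih w' m (a + T) (by rw [hwj]; omega) hTw' hR' (by
      intro i hi
      rw [hwi i hi]
      exact hm i hi)
    refine ⟨v', hv', ?_⟩
    have : Function.update w' j v' = Function.update w j v' := Function.update_idem ..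
    rwa [this] at hRv'

end Pool.Agent.H20
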