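import Mathlib

/-!
Covering numbers in abelian groups: `Cov E F k` says that `E` is covered by at most `k`
translates of `F`; `sm B k` is the `k`-fold sumset of `B`.
-/

namespace Pool.Agent.H20

open Finset

variable {G : Type*} [AddCommGroup G]

/-- `k`-fold sumset. -/
def sm (B : Set G) : ℕ → Set G
  | 0 => {0}
  | k + 1 => {z | ∃ x ∈ sm B k, ∃ y ∈ B, z = x + y}

lemma sm_zero (B : Set G) : sm B 0 = {0} := rfl

lemma mem_sm_succ {B : Set G} {k : ℕ} {z : G} :
    z ∈ sm B (k + 1) ↔ ∃ x ∈ sm B k, ∃ y ∈ B, z = x + y := Iff.rfl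

lemma mem_sm_one {B : Set G} {z : G} : z ∈ sm B 1 ↔ z ∈ B := by
  rw [mem_sm_succ]
  constructor
  · rintro ⟨x, hx, y, hy, rfl⟩
    rw [sm_zero, Set.mem_singleton_iff] at hx
    subst hx
    simpa using hy
  · intro hz
    exact ⟨0, rfl, z, hz, by simp⟩

lemma sm_add {B : Set G} {a b : ℕ} {x y : G} (hx : x ∈ sm B a) (hy : y ∈ sm B b) :
    x + y ∈ sm B (a + b) := by
  induction b generalizing y with
  | zero =>
    rw [sm_zero, Set.mem_singleton_iff] at hy
    subst hy
    simpa using hx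
  | succ b ih =>
    obtain ⟨y', hy', z, hz, rfl⟩ := hy
    exact ⟨x + y', ih hy', z, hz, by abel⟩

/-- every element of `sm B (a + b)` splits. -/
lemma sm_split {B : Set G} {a b : ℕ} {z : G} (hz : z ∈ sm B (a + b)) :
    ∃ x ∈ sm B a, ∃ y ∈ sm B b, z = x + y := by
  induction b generalizing z with
  | zero => exact ⟨z, hz, 0, rfl, by simp⟩
  | succ b ih =>
    obtain ⟨z', hz', w, hw, rfl⟩ := hz
    obtain ⟨x, hx, y, hy, rfl⟩ := ih hz'
    exact ⟨x, hx, y + w, ⟨y, hy, w, hw, rfl⟩, by abel⟩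

lemma sm_mono_left {B B' : Set G} (h : B ⊆ B') (k : ℕ) : sm B k ⊆ sm B' k := by
  induction k with
  | zero => exact subset_rfl
  | succ k ih =>
    rintro _ ⟨x, hx, y, hy, rfl⟩
    exact ⟨x, ih hx, y, h hy, rfl⟩

lemma sm_mono_right {B : Set G} (h0 : (0 : G) ∈ B) {a b : ℕ} (hab : a ≤ b) : sm B a ⊆ sm B b := by
  induction b, hab using Nat.le_induction with
  | base => exact subset_rfl
  | succ b _ ih =>
    intro x hx
    exact ⟨x, ih hx, 0, h0, by simp⟩

lemma zero_mem_sm {B : Set G} (h0 : (0 : G) ∈ B) (k : ℕ) : (0 : G) ∈ sm B k :=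
  sm_mono_right h0 (Nat.zero_le k) rfl

lemma neg_mem_sm {B : Set G} (hs : ∀ x ∈ B, -x ∈ B) {k : ℕ} {x : G} (hx : x ∈ sm B k) :
    -x ∈ sm B k := by
  induction k generalizing x with
  | zero =>
    rw [sm_zero, Set.mem_singleton_iff] at hx ⊢
    subst hx; simp
  | succ k ih =>
    obtain ⟨y, hy, z, hz, rfl⟩ := hx
    exact ⟨-y, ih hy, -z, hs z hz, by abel⟩

/-- sumset of sumset -/
lemma sm_sm {B : Set G} {a k : ℕ} : sm (sm B a) k ⊆ sm B (a * k) := by
  induction k with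
  | zero => exact subset_rfl
  | succ k ih =>
    rintro _ ⟨x, hx, y, hy, rfl⟩
    have := sm_add (ih hx) hy
    rwa [Nat.mul_succ]

lemma nsmul_mem_sm {B : Set G} {a : ℕ} {x : G} (hx : x ∈ sm B a) (k : ℕ) :
    k • x ∈ sm B (a * k) := by
  induction k with
  | zero => simp [sm_zero]
  | succ k ih =>
    rw [succ_nsmul, Nat.mul_succ]
    exact sm_add ih hx

lemma nsmul_mem_sm' {B : Set G} {x : G} (hx : x ∈ B) (k : ℕ) : k • x ∈ sm B k := by
  have := nsmul_mem_sm (mem_sm_one.mpr hx) k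
  rwa [one_mul] at this

lemma sum_mem_sm {ι : Type*} {B : Set G} (s : Finset ι) (f : ι → G) (a : ι → ℕ)
    (h : ∀ i ∈ s, f i ∈ sm B (a i)) : ∑ i ∈ s, f i ∈ sm B (∑ i ∈ s, a i) := by
  classical
  induction s using Finset.induction_on with
  | empty => simp [sm_zero]
  | insert i s hi ih =>
    rw [Finset.sum_insert hi, Finset.sum_insert hi]
    exact sm_add (h i (Finset.mem_insert_self i s))
      (ih fun j hj => h j (Finset.mem_insert_of_mem hj))

/-- `E` is covered by at most `k` translates of `F`. -/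
def Cov (E F : Set G) (k : ℕ) : Prop :=
  ∃ Y : Finset G, Y.card ≤ k ∧ ∀ e ∈ E, ∃ y ∈ Y, ∃ f ∈ F, e = y + f

lemma Cov.mono_left {E E' F : Set G} {k : ℕ} (h : Cov E F k) (hE : E' ⊆ E) : Cov E' F k := by
  obtain ⟨Y, hY, h⟩ := h
  exact ⟨Y, hY, fun e he => h e (hE he)⟩

lemma Cov.mono {E F : Set G} {k l : ℕ} (h : Cov E F k) (hkl : k ≤ l) : Cov E F l := by
  obtain ⟨Y, hY, h⟩ := h
  exact ⟨Y, hY.trans hkl, h⟩

lemma Cov.trans {E F H : Set G} {k l : ℕ} (h : Cov E F k) (h' : Cov F H l) :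
    Cov E H (k * l) := by
  classical
  obtain ⟨Y, hY, h⟩ := h
  obtain ⟨Z, hZ, h'⟩ := h'
  refine ⟨(Y ×ˢ Z).image fun p => p.1 + p.2, ?_, ?_⟩
  · refine Finset.card_image_le.trans ?_
    rw [Finset.card_product]
    exact Nat.mul_le_mul hY hZ
  · intro e he
    obtain ⟨y, hy, f, hf, rfl⟩ := h e he
    obtain ⟨z, hz, g, hg, rfl⟩ := h' f hf
    exact ⟨y + z, Finset.mem_image.mpr ⟨(y, z), Finset.mk_mem_product hy hz, rfl⟩, g, hg, by abel⟩

lemma Cov.refl (E : Set G) : Cov E E 1 :=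
  ⟨{0}, by simp, fun e he => ⟨0, by simp, e, he, by simp⟩⟩

lemma Cov.pos {E F : Set G} {k : ℕ} (h : Cov E F k) (hE : E.Nonempty) : 1 ≤ k := by
  obtain ⟨Y, hY, h⟩ := h
  obtain ⟨e, he⟩ := hE
  obtain ⟨y, hy, -⟩ := h e he
  exact (Finset.card_pos.mpr ⟨y, hy⟩).trans_le hY

/-- Standing assumptions for a ball `B` with covering constant `K`: there is a finite set `X`
of size at most `K`, contained in the triple sumset, such that `B + B ⊆ X + B`. -/
structure Good (B : Set G) (K : ℕ) : Prop where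
  zero : (0 : G) ∈ B
  neg : ∀ x ∈ B, -x ∈ B
  pos : 1 ≤ K
  cov : Cov (sm B 2) B K

/-- one may choose the translates in `sm B 3`. -/
lemma Good.exists_X {B : Set G} {K : ℕ} (h : Good B K) :
    ∃ X : Finset G, X.card ≤ K ∧ (∀ x ∈ X, x ∈ sm B 3) ∧
      ∀ e ∈ sm B 2, ∃ y ∈ X, ∃ f ∈ B, e = y + f := by
  classical
  obtain ⟨Y, hY, hc⟩ := h.cov
  refine ⟨Y.filter fun y => y ∈ sm B 3, (Finset.card_filter_le _ _).trans hY,
    fun x hx => (Finset.mem_filter.mp hx).2, fun e he => ?_⟩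
  obtain ⟨y, hy, f, hf, hef⟩ := hc e he
  refine ⟨y, Finset.mem_filter.mpr ⟨hy, ?_⟩, f, hf, hef⟩
  have h1 : y = e + -f := by rw [hef]; abel
  rw [h1]
  exact ⟨e, he, -f, h.neg f hf, rfl⟩

/-- elements of `sm B k` are nonnegative combinations of `X` plus an element of `B`. -/
lemma exists_coeff {B : Set G} (_h0 : (0 : G) ∈ B) {X : Finset G}
    (hX : ∀ e ∈ sm B 2, ∃ y ∈ X, ∃ f ∈ B, e = y + f) (k : ℕ) {z : G} (hz : z ∈ sm B (k + 1)) :
    ∃ q : G → ℕ, ∑ x ∈ X, q x ≤ k ∧ ∃ b ∈ B, z = ∑ x ∈ X, q x • x + b := by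
  classical
  induction k generalizing z with
  | zero => exact ⟨fun _ => 0, by simp, z, mem_sm_one.mp hz, by simp⟩
  | succ k ih =>
    obtain ⟨z', hz', w, hw, rfl⟩ := hz
    obtain ⟨q, hq, b, hb, rfl⟩ := ih hz'
    obtain ⟨y, hy, f, hf, hyf⟩ := hX (b + w) ⟨b, mem_sm_one.mpr hb, w, hw, rfl⟩
    refine ⟨fun x => q x + if x = y then 1 else 0, ?_, f, hf, ?_⟩
    · rw [Finset.sum_add_distrib, Finset.sum_ite_eq' X y, if_pos hy]
      omega
    · have h1 : ∑ x ∈ X, (q x + if x = y then 1 else 0) • x = ∑ x ∈ X, q x • x + y := by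
        simp only [add_smul, Finset.sum_add_distrib, ite_smul, one_smul, zero_smul,
          Finset.sum_ite_eq' X y, if_pos hy]
      rw [h1, add_assoc, hyf]
      abel

/-- Doubling of sumsets is uniformly bounded: `R h B` is covered by a bounded number of
translates of `h B`. -/
lemma cov_dil {B : Set G} {K : ℕ} (hB : Good B K) (R h : ℕ) (hR : 1 ≤ R) (hh : 1 ≤ h) :
    Cov (sm B (R * h)) (sm B h) ((6 * K * R + 1) ^ K) := by
  classical
  obtain ⟨X, hXK, hX3, hX⟩ := hB.exists_X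
  have hK := hB.pos
  -- the step
  obtain ⟨s, hs1, hs2, hs3⟩ : ∃ s : ℕ, 1 ≤ s ∧ 3 * K * (s - 1) + 1 ≤ h ∧ h ≤ 6 * K * s := by
    rcases Nat.lt_or_ge (h / (3 * K)) 1 with hlt | hge
    · refine ⟨1, le_rfl, by omega, ?_⟩
      have h3K : 0 < 3 * K := by omega
      have : h < 3 * K := by
        by_contra hcon
        push Not at hcon
        have := Nat.div_pos hcon h3K
        omega
      nlinarith
    · refine ⟨h / (3 * K), hge, ?_, ?_⟩
      · have h1 : 3 * K * (h / (3 * K)) ≤ h := Nat.mul_div_le _ _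
        have h2 : 3 * K * (h / (3 * K) - 1) + 3 * K = 3 * K * (h / (3 * K)) := by
          obtain ⟨m, hm⟩ : ∃ m, h / (3 * K) = m + 1 := ⟨h / (3 * K) - 1, by omega⟩
          rw [hm]; simp; ring
        omega
      · have h1 : h < 3 * K * (h / (3 * K)) + 3 * K := Nat.lt_mul_div_succ h (by omega)
        nlinarith
  -- translates: `s • (∑ q x • x)` with `q x ≤ 6 K R`
  let I := X.pi fun _ => Finset.range (6 * K * R + 1)
  refine ⟨(Fintype.piFinset fun _ : X => Finset.range (6 * K * R + 1)).image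
    fun q => ∑ x : X, (s * q x) • (x : G), ?_, ?_⟩
  · refine Finset.card_image_le.trans ?_
    rw [Fintype.card_piFinset]
    simp only [Finset.card_range, Finset.prod_const, Finset.card_univ, Fintype.card_coe]
    exact Nat.pow_le_pow_right (by omega) hXK
  · intro e he
    have hRh : 1 ≤ R * h := Nat.mul_pos hR hh
    obtain ⟨k, hk⟩ : ∃ k, R * h = k + 1 := ⟨R * h - 1, by omega⟩
    rw [hk] at he
    obtain ⟨n, hn, b, hb, rfl⟩ := exists_coeff hB.zero hX k he
    have hnx : ∀ x ∈ X, n x ≤ k := fun x hx =>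
      (Finset.single_le_sum (fun _ _ => Nat.zero_le _) hx).trans hn
    refine ⟨_, Finset.mem_image.mpr ⟨fun x => n x / s, ?_, rfl⟩,
      ∑ x ∈ X, (n x % s) • x + b, ?_, ?_⟩
    · rw [Fintype.mem_piFinset]
      rintro ⟨x, hx⟩
      rw [Finset.mem_range]
      have h1 : n x ≤ 6 * K * R * s := by
        have := hnx x hx
        calc n x ≤ R * h := by omega
          _ ≤ R * (6 * K * s) := Nat.mul_le_mul_left _ hs3
          _ = 6 * K * R * s := by ring
      have : n x / s ≤ 6 * K * R := by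
        rw [Nat.div_le_iff_le_mul_add_pred (by omega)]
        nlinarith
      exact Nat.lt_succ_of_le this
    · have h1 : ∑ x ∈ X, (n x % s) • x ∈ sm B (∑ x ∈ X, 3 * (n x % s)) :=
        sum_mem_sm X _ _ fun x hx => nsmul_mem_sm (hX3 x hx) _
      have h2 : ∑ x ∈ X, 3 * (n x % s) ≤ 3 * K * (s - 1) := by
        calc ∑ x ∈ X, 3 * (n x % s) ≤ ∑ _x ∈ X, 3 * (s - 1) := by
              refine Finset.sum_le_sum fun x _ => ?_
              have := Nat.mod_lt (n x) (show s > 0 by omega)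
              omega
          _ = X.card * (3 * (s - 1)) := by rw [Finset.sum_const, smul_eq_mul]
          _ ≤ K * (3 * (s - 1)) := Nat.mul_le_mul_right _ hXK
          _ = 3 * K * (s - 1) := by ring
      have h3 := sm_add h1 (mem_sm_one.mpr hb)
      exact sm_mono_right hB.zero (by omega) h3
    · rw [Finset.sum_coe_sort X fun x => (s * (n x / s)) • x, ← add_assoc,
        ← Finset.sum_add_distrib]
      congr 1
      refine Finset.sum_congr rfl fun x _ => ?_
      rw [← add_smul, Nat.div_add_mod]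

/-- the constant in the submultiplicativity of covering numbers -/
def CC (K : ℕ) : ℕ := (6 * K * 3 + 1) ^ K * (6 * K * (3 * K + 1) + 1) ^ K

lemma CC_pos (K : ℕ) : 1 ≤ CC K := by
  unfold CC
  exact Nat.mul_pos (Nat.pow_pos (by omega)) (Nat.pow_pos (by omega))

/-- Submultiplicativity of covering numbers. -/
lemma cov_mul {B : Set G} {K : ℕ} (hB : Good B K) {h m u v : ℕ} (hh : 1 ≤ h) (hm : 1 ≤ m)
    (hu : Cov (sm B h) B u) (hv : Cov (sm B m) B v) :
    Cov (sm B (h * m)) B (CC K * u * v) := by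
  classical
  obtain ⟨X, hXK, hX3, hX⟩ := hB.exists_X
  have hK := hB.pos
  -- cover `3 m B` by translates of `B`
  have c1 : Cov (sm B (3 * m)) B ((6 * K * 3 + 1) ^ K * v) :=
    (cov_dil hB 3 m (by omega) hm).trans hv
  -- cover `h m B` by translates of `(3 K + 1) h B`
  have c2 : Cov (sm B (h * m)) (sm B ((3 * K + 1) * h)) ((6 * K * 3 + 1) ^ K * v) := by
    obtain ⟨Z, hZ, hc⟩ := c1
    refine ⟨Z.image fun z => h • z, Finset.card_image_le.trans hZ, fun e he => ?_⟩
    obtain ⟨k, hk⟩ : ∃ k, h * m = k + 1 := ⟨h * m - 1, by have := Nat.mul_pos hh hm; omega⟩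
    rw [hk] at he
    obtain ⟨n, hn, b, hb, rfl⟩ := exists_coeff hB.zero hX k he
    -- the quotient part
    have hq : ∑ x ∈ X, (n x / h) • x ∈ sm B (3 * m) := by
      have h1 : ∑ x ∈ X, (n x / h) • x ∈ sm B (∑ x ∈ X, 3 * (n x / h)) :=
        sum_mem_sm X _ _ fun x hx => nsmul_mem_sm (hX3 x hx) _
      refine sm_mono_right hB.zero ?_ h1
      rw [← Finset.mul_sum]
      refine Nat.mul_le_mul_left 3 ?_
      have h2 : h * ∑ x ∈ X, n x / h ≤ h * m := by
        rw [Finset.mul_sum]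
        calc ∑ x ∈ X, h * (n x / h) ≤ ∑ x ∈ X, n x :=
              Finset.sum_le_sum fun x _ => Nat.mul_div_le _ _
          _ ≤ h * m := by omega
      exact Nat.le_of_mul_le_mul_left h2 (by omega)
    obtain ⟨z, hz, b', hb', hzb⟩ := hc _ hq
    refine ⟨h • z, Finset.mem_image_of_mem _ hz, h • b' + ∑ x ∈ X, (n x % h) • x + b, ?_, ?_⟩
    · have h1 : ∑ x ∈ X, (n x % h) • x ∈ sm B (∑ x ∈ X, 3 * (n x % h)) :=
        sum_mem_sm X _ _ fun x hx => nsmul_mem_sm (hX3 x hx) _
      have h2 : ∑ x ∈ X, 3 * (n x % h) ≤ 3 * K * (h - 1) := by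
        calc ∑ x ∈ X, 3 * (n x % h) ≤ ∑ _x ∈ X, 3 * (h - 1) := by
              refine Finset.sum_le_sum fun x _ => ?_
              have := Nat.mod_lt (n x) (show h > 0 by omega)
              omega
          _ = X.card * (3 * (h - 1)) := by rw [Finset.sum_const, smul_eq_mul]
          _ ≤ K * (3 * (h - 1)) := Nat.mul_le_mul_right _ hXK
          _ = 3 * K * (h - 1) := by ring
      have h3 := sm_add (sm_add (nsmul_mem_sm' hb' h) h1) (mem_sm_one.mpr hb)
      refine sm_mono_right hB.zero ?_ h3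
      obtain ⟨g, rfl⟩ : ∃ g, h = g + 1 := ⟨h - 1, by omega⟩
      simp only [Nat.add_sub_cancel] at h2 ⊢
      nlinarith
    · have e1 : h • z + h • b' = ∑ x ∈ X, (h * (n x / h)) • x := by
        rw [← smul_add, ← hzb, Finset.smul_sum]
        exact Finset.sum_congr rfl fun x _ => by rw [smul_smul]
      have e2 : ∑ x ∈ X, n x • x = ∑ x ∈ X, (h * (n x / h)) • x + ∑ x ∈ X, (n x % h) • x := by
        rw [← Finset.sum_add_distrib]
        refine Finset.sum_congr rfl fun x _ => ?_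
        rw [← add_smul, Nat.div_add_mod]
      rw [e2, ← e1]
      abel
  have c3 := cov_dil hB (3 * K + 1) h (by omega) hh
  refine ((c2.trans c3).trans hu).mono (le_of_eq ?_)
  unfold CC
  ring

end Pool.Agent.H20
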