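import Mathlib
import Pool.Agent.H20.Cov

/-!
Growth argument: a filtration of `ℤ` by balls whose covering numbers are eventually periodic in
the radius cannot contain elements of super-exponential size.
-/

namespace Pool.Agent.H20

open Finset Filter Topology

/-- The numerical contradiction. -/
lemma no_jump (N : ℕ → ℕ → ℕ) (K C n₂ : ℕ) (bd : ℕ → ℕ)
    (hK : 1 ≤ K) (hC : 1 ≤ C)
    (h1 : ∀ n ≥ n₂, ∀ h ≥ 1, 1 ≤ N h n)
    (h2 : ∀ n ≥ n₂, ∀ h ≥ 1, ∀ m ≥ 1, N (h * m) n ≤ C * N h n * N m n)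
    (h3 : ∀ n ≥ n₂, ∀ h ≥ 1, N h n ≤ K * N h (n + 1))
    (h4 : ∀ n ≥ n₂, ∀ h ≥ 1, N h n ≤ bd h)
    (h5 : ∀ h v, ∃ p N₀, 0 < p ∧ ∀ n ≥ N₀, (N h n ≤ v ↔ N h (n + p) ≤ v))
    (h6 : ∀ g ≥ 1, ∀ m, ∃ n ≥ m, g * N g n ≤ K * N (2 * g) (n + 1)) : False := by
  classical
  have p1 : ∀ j : ℕ, 1 ≤ 2 ^ j := fun j => Nat.one_le_two_pow
  let SA : ℕ → Set ℕ := fun j => {v | ∃ n₀, ∀ n ≥ n₀, N (2 ^ j) n ≤ v}
  let SB : ℕ → Set ℕ := fun j => {v | ∀ n₀, ∃ n ≥ n₀, N (2 ^ j) n ≤ v}
  have hSA : ∀ j, (SA j).Nonempty := fun j => ⟨bd (2 ^ j), n₂, fun n hn => h4 n hn _ (p1 j)⟩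
  have hSB : ∀ j, (SB j).Nonempty := fun j => ⟨bd (2 ^ j), fun n₀ =>
    ⟨max n₀ n₂, le_max_left _ _, h4 _ (le_max_right _ _) _ (p1 j)⟩⟩
  let a : ℕ → ℕ := fun j => sInf (SA j)
  let b : ℕ → ℕ := fun j => sInf (SB j)
  have fa : ∀ j, ∃ n₀, ∀ n ≥ n₀, N (2 ^ j) n ≤ a j := fun j => Nat.sInf_mem (hSA j)
  have fb : ∀ j, ∀ n₀, ∃ n ≥ n₀, N (2 ^ j) n ≤ b j := fun j => Nat.sInf_mem (hSB j)
  have fb' : ∀ j, ∃ n₀, ∀ n ≥ n₀, b j ≤ N (2 ^ j) n := by
    intro j
    by_contra hcon
    push Not at hcon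
    have hpos : 0 < b j := by
      obtain ⟨n, -, hn⟩ := hcon 0
      omega
    have : b j - 1 ∈ SB j := by
      intro n₀
      obtain ⟨n, hn, hlt⟩ := hcon n₀
      exact ⟨n, hn, by omega⟩
    have h := Nat.sInf_le this
    change b j ≤ b j - 1 at h
    omega
  have apos : ∀ j, 1 ≤ a j := by
    intro j
    obtain ⟨n₀, h⟩ := fa j
    exact (h1 (max n₀ n₂) (le_max_right _ _) _ (p1 j)).trans (h _ (le_max_left _ _))
  have bpos : ∀ j, 1 ≤ b j := by
    intro j
    obtain ⟨n, hn, h⟩ := fb j n₂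
    exact (h1 n hn _ (p1 j)).trans h
  have asub : ∀ i j, a (i + j) ≤ C * a i * a j := by
    intro i j
    obtain ⟨n₀, h⟩ := fa i
    obtain ⟨n₁, h'⟩ := fa j
    refine Nat.sInf_le ⟨max n₂ (max n₀ n₁), fun n hn => ?_⟩
    have e1 : n ≥ n₂ := (le_max_left _ _).trans hn
    have e2 : n ≥ n₀ := ((le_max_left _ _).trans (le_max_right _ _)).trans hn
    have e3 : n ≥ n₁ := ((le_max_right _ _).trans (le_max_right _ _)).trans hn
    rw [pow_add]
    exact (h2 n e1 _ (p1 i) _ (p1 j)).trans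
      (Nat.mul_le_mul (Nat.mul_le_mul_left _ (h n e2)) (h' n e3))
  have hKstep : ∀ k n, n ≥ n₂ → ∀ h ≥ 1, N h n ≤ K ^ k * N h (n + k) := by
    intro k
    induction k with
    | zero => intro n _ h _; simp
    | succ k ih =>
      intro n hn h hh
      calc N h n ≤ K ^ k * N h (n + k) := ih n hn h hh
        _ ≤ K ^ k * (K * N h (n + k + 1)) := Nat.mul_le_mul_left _ (h3 _ (by omega) h hh)
        _ = K ^ (k + 1) * N h (n + (k + 1)) := by rw [pow_succ, mul_assoc]; rfl
  have E1 : ∀ j, ∃ Gc : ℕ, 1 ≤ Gc ∧ ∀ i, a (j * i) ≤ Gc * (C * b j) ^ i := by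
    intro j
    obtain ⟨p, N₀, hp, hper⟩ := h5 (2 ^ j) (b j)
    obtain ⟨ns, hns, hnsb⟩ := fb j (max N₀ n₂)
    have hk : ∀ k, N (2 ^ j) (ns + k * p) ≤ b j := by
      intro k
      induction k with
      | zero => simpa using hnsb
      | succ k ih =>
        have e : ns + (k + 1) * p = ns + k * p + p := by ring
        rw [e]
        exact (hper _ (by have := le_max_left N₀ n₂; omega)).mp ih
    have hns2 : n₂ ≤ ns := (le_max_right _ _).trans hns
    have hbd : 1 ≤ bd 1 := (h1 n₂ le_rfl 1 le_rfl).trans (h4 n₂ le_rfl 1 le_rfl)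
    refine ⟨K ^ p * bd 1, Nat.mul_pos (Nat.pow_pos hK) hbd, fun i => ?_⟩
    -- at the good radii
    have hgood : ∀ n ≥ n₂, N (2 ^ j) n ≤ b j → ∀ i, N (2 ^ (j * i)) n ≤ bd 1 * (C * b j) ^ i := by
      intro n hn hnb i
      induction i with
      | zero => simpa using h4 n hn 1 le_rfl
      | succ i ih =>
        have e : 2 ^ (j * (i + 1)) = 2 ^ (j * i) * 2 ^ j := by rw [← pow_add]; ring_nf
        rw [e]
        calc N (2 ^ (j * i) * 2 ^ j) n ≤ C * N (2 ^ (j * i)) n * N (2 ^ j) n :=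
              h2 n hn _ (p1 _) _ (p1 _)
          _ ≤ C * (bd 1 * (C * b j) ^ i) * b j :=
              Nat.mul_le_mul (Nat.mul_le_mul_left _ ih) hnb
          _ = bd 1 * (C * b j) ^ (i + 1) := by ring
    refine Nat.sInf_le ⟨ns, fun n hn => ?_⟩
    -- choose `k` with `n ≤ ns + k p < n + p`
    obtain ⟨k, hk1, hk2⟩ : ∃ k, n ≤ ns + k * p ∧ ns + k * p ≤ n + p := by
      refine ⟨(n - ns) / p + 1, ?_, ?_⟩
      · have h := Nat.lt_div_mul_add (a := n - ns) hp
        have e : ((n - ns) / p + 1) * p = (n - ns) / p * p + p := by ring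
        rw [e]; omega
      · have h := Nat.div_mul_le_self (n - ns) p
        have e : ((n - ns) / p + 1) * p = (n - ns) / p * p + p := by ring
        rw [e]; omega
    obtain ⟨d, hd⟩ : ∃ d, ns + k * p = n + d := ⟨ns + k * p - n, by omega⟩
    calc N (2 ^ (j * i)) n ≤ K ^ d * N (2 ^ (j * i)) (n + d) := hKstep d n (by omega) _ (p1 _)
      _ ≤ K ^ p * (bd 1 * (C * b j) ^ i) := by
          refine Nat.mul_le_mul (Nat.pow_le_pow_right hK (by omega)) ?_
          rw [← hd]
          exact hgood _ (by omega) (hk k) i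
      _ = K ^ p * bd 1 * (C * b j) ^ i := by ring
  have E2 : ∀ j, 2 ^ j * b j ≤ K * a (j + 1) := by
    intro j
    obtain ⟨n₀, ha⟩ := fa (j + 1)
    obtain ⟨n₁, hb⟩ := fb' j
    obtain ⟨n, hn, h⟩ := h6 (2 ^ j) (p1 j) (max n₀ n₁)
    have e1 : n ≥ n₀ := (le_max_left _ _).trans hn
    have e2 : n ≥ n₁ := (le_max_right _ _).trans hn
    calc 2 ^ j * b j ≤ 2 ^ j * N (2 ^ j) n := Nat.mul_le_mul_left _ (hb n e2)
      _ ≤ K * N (2 * 2 ^ j) (n + 1) := h
      _ ≤ K * a (j + 1) := by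
          refine Nat.mul_le_mul_left _ ?_
          have := ha (n + 1) (by omega)
          rwa [pow_succ, mul_comm] at this
  -- pass to logarithms
  have Cpos : (0 : ℝ) < C := by exact_mod_cast hC
  have Kpos : (0 : ℝ) < K := by exact_mod_cast hK
  have aR : ∀ j, (0 : ℝ) < a j := fun j => by exact_mod_cast (apos j)
  have bR : ∀ j, (0 : ℝ) < b j := fun j => by exact_mod_cast (bpos j)
  let u : ℕ → ℝ := fun j => Real.log (C * a j)
  have hu : Subadditive u := by
    intro i j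
    have h : ((a (i + j) : ℕ) : ℝ) ≤ C * a i * a j := by exact_mod_cast asub i j
    calc Real.log (C * a (i + j)) ≤ Real.log ((C * a i) * (C * a j)) := by
          apply Real.log_le_log (mul_pos Cpos (aR _))
          calc (C : ℝ) * a (i + j) ≤ C * (C * a i * a j) := mul_le_mul_of_nonneg_left h Cpos.le
            _ = (C * a i) * (C * a j) := by ring
      _ = _ := Real.log_mul (mul_pos Cpos (aR _)).ne' (mul_pos Cpos (aR _)).ne'
  have u0 : ∀ j, 0 ≤ u j := by
    intro j
    apply Real.log_nonneg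
    have : 1 ≤ C * a j := Nat.mul_pos hC (apos j)
    exact_mod_cast this
  have hbdd : BddBelow (Set.range fun n => u n / n) := by
    refine ⟨0, ?_⟩
    rintro _ ⟨n, rfl⟩
    exact div_nonneg (u0 n) (Nat.cast_nonneg n)
  set D := hu.lim with hD
  have hlow : ∀ n : ℕ, n ≠ 0 → D * n ≤ u n := by
    intro n hn
    have h := hu.lim_le_div hbdd hn
    have hn' : (0 : ℝ) < n := by exact_mod_cast Nat.pos_of_ne_zero hn
    rwa [le_div_iff₀ hn'] at h
  have hlim : Tendsto (fun n : ℕ => u n / n) atTop (𝓝 D) := hu.tendsto_lim hbdd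
  -- consequence of E1
  have F1 : ∀ j : ℕ, 1 ≤ j → D * j ≤ Real.log (C * b j) := by
    intro j hj
    obtain ⟨Gc, hG, h⟩ := E1 j
    have Gpos : (0 : ℝ) < Gc := by exact_mod_cast hG
    have cb : (0 : ℝ) < C * b j := mul_pos Cpos (bR j)
    have key : ∀ i : ℕ, 1 ≤ i → (i : ℝ) * (D * j - Real.log (C * b j)) ≤ Real.log (C * Gc) := by
      intro i hi
      have hji : j * i ≠ 0 := Nat.mul_ne_zero (by omega) (by omega)
      have e1 := hlow (j * i) hji
      have e2 : u (j * i) ≤ Real.log (C * Gc) + i * Real.log (C * b j) := by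
        have e3 : ((a (j * i) : ℕ) : ℝ) ≤ Gc * (C * b j) ^ i := by exact_mod_cast h i
        calc Real.log (C * a (j * i)) ≤ Real.log ((C * Gc) * (C * b j) ^ i) := by
              apply Real.log_le_log (mul_pos Cpos (aR _))
              calc (C : ℝ) * a (j * i) ≤ C * (Gc * (C * b j) ^ i) :=
                    mul_le_mul_of_nonneg_left e3 Cpos.le
                _ = (C * Gc) * (C * b j) ^ i := by ring
          _ = _ := by
              rw [Real.log_mul (mul_pos Cpos Gpos).ne' (pow_pos cb _).ne', Real.log_pow]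
      push_cast at e1
      nlinarith
    by_contra hcon
    push Not at hcon
    set δ := D * j - Real.log (C * b j) with hδ
    have δpos : 0 < δ := by linarith
    obtain ⟨i, hi⟩ := exists_nat_gt (Real.log (C * Gc) / δ)
    have := key (i + 1) (by omega)
    rw [div_lt_iff₀ δpos] at hi
    push_cast at this
    nlinarith
  -- consequence of E2
  set M : ℝ := Real.log K + Real.log C + Real.log (C * a 1) with hM
  have F2 : ∀ j : ℕ, 1 ≤ j → Real.log 2 + D ≤ u j / j + M / j := by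
    intro j hj
    have e1 : ((2 : ℝ) ^ j) * b j ≤ K * (C * a j * a 1) := by
      have : 2 ^ j * b j ≤ K * (C * a j * a 1) :=
        (E2 j).trans (Nat.mul_le_mul_left _ (asub j 1))
      exact_mod_cast this
    have e2 : j * Real.log 2 + Real.log (b j) ≤ Real.log K + u j + Real.log (a 1) := by
      have e3 := Real.log_le_log (by have := bR j; positivity) e1
      rw [Real.log_mul (by positivity) (bR j).ne', Real.log_pow,
        Real.log_mul Kpos.ne' (mul_pos (mul_pos Cpos (aR _)) (aR _)).ne',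
        Real.log_mul (mul_pos Cpos (aR _)).ne' (aR _).ne'] at e3
      change _ ≤ Real.log K + Real.log (C * a j) + Real.log (a 1)
      linarith
    have e4 := F1 j hj
    rw [Real.log_mul Cpos.ne' (bR j).ne'] at e4
    have e5 : Real.log (C * a 1) = Real.log C + Real.log (a 1) :=
      Real.log_mul Cpos.ne' (aR _).ne'
    have C0 : 0 ≤ Real.log C := Real.log_nonneg (by exact_mod_cast hC)
    have hj' : (0 : ℝ) < j := by exact_mod_cast hj
    rw [← add_div, le_div_iff₀ hj']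
    rw [hM, e5]
    nlinarith
  have hlim2 : Tendsto (fun n : ℕ => u n / n + M / n) atTop (𝓝 (D + 0)) :=
    hlim.add (tendsto_const_div_atTop_nhds_zero_nat M)
  have hle : Real.log 2 + D ≤ D + 0 := by
    refine ge_of_tendsto hlim2 ?_
    filter_upwards [eventually_ge_atTop 1] with n hn
    exact F2 n hn
  have := Real.log_pos (by norm_num : (1 : ℝ) < 2)
  linarith

/-- elements of `sm B k` have size at most `k * F`. -/
lemma abs_le_of_mem_sm {B : Set ℤ} {F : ℤ} (hF : ∀ d ∈ B, |d| ≤ F) {k : ℕ} {x : ℤ}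
    (hx : x ∈ sm B k) : |x| ≤ k * F := by
  induction k generalizing x with
  | zero =>
    rw [sm_zero, Set.mem_singleton_iff] at hx
    subst hx; simp
  | succ k ih =>
    obtain ⟨y, hy, z, hz, rfl⟩ := hx
    have h1 := ih hy
    have h2 := hF z hz
    have h3 := abs_add_le y z
    push_cast
    nlinarith

/-- The jump lemma. -/
lemma jump {B B' : Set ℤ} {K g u v : ℕ} (hsub : B ⊆ B') (hcov : Cov B' B K)
    (h0 : (0 : ℤ) ∈ B)
    {x : ℤ} (hxB : x ∈ B') {F : ℤ} (hF : ∀ d ∈ B, |d| ≤ F) (hx : (2 * g + 2) * F < |x|)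
    (hv : Cov (sm B' (2 * g)) B' v) (hu : ∀ k, Cov (sm B g) B k → u ≤ k) :
    g * u ≤ v * K := by
  classical
  obtain ⟨Y, hY, hc⟩ := hv.trans hcov
  have hF0 : 0 ≤ F := (abs_nonneg _).trans (hF 0 h0)
  let Yi : ℕ → Finset ℤ := fun i =>
    Y.filter fun y => ∃ d ∈ B, ∃ e ∈ sm B g, y + d = (i : ℤ) * x + e
  have hYi : ∀ i ∈ range g, u ≤ (Yi i).card := by
    intro i hi
    rw [Finset.mem_range] at hi
    refine hu _ ⟨(Yi i).image fun y => y - i * x, Finset.card_image_le, fun e he => ?_⟩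
    have h1 : (i : ℤ) * x + e ∈ sm B' (2 * g) := by
      have h2 : (i : ℤ) * x ∈ sm B' i := by
        have := nsmul_mem_sm' hxB i
        rwa [nsmul_eq_mul] at this
      have h3 := sm_add h2 (sm_mono_left hsub g he)
      exact sm_mono_right (hsub h0) (by omega) h3
    obtain ⟨y, hy, f, hf, hyf⟩ := hc _ h1
    refine ⟨y - i * x, Finset.mem_image.mpr ⟨y, Finset.mem_filter.mpr ⟨hy, f, hf, e, he,
      hyf.symm⟩, rfl⟩, f, hf, by linarith⟩
  have hdisj : ∀ i ∈ range g, ∀ j ∈ range g, i ≠ j → Disjoint (Yi i) (Yi j) := by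
    intro i _ j _ hij
    rw [Finset.disjoint_left]
    intro y hy1 hy2
    obtain ⟨-, d, hd, e, he, h1⟩ := Finset.mem_filter.mp hy1
    obtain ⟨-, d', hd', e', he', h2⟩ := Finset.mem_filter.mp hy2
    have h3 : ((i : ℤ) - j) * x = d - d' - e + e' := by linear_combination h2 - h1
    have h4 : |((i : ℤ) - j) * x| ≤ (2 * g + 2) * F := by
      rw [h3]
      have a1 := hF d hd
      have a2 := hF d' hd'
      have a3 := abs_le_of_mem_sm hF he
      have a4 := abs_le_of_mem_sm hF he'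
      rw [abs_le] at *
      constructor <;> nlinarith
    have h5 : (1 : ℤ) ≤ |(i : ℤ) - j| := by
      apply Int.one_le_abs
      intro h
      apply hij
      have : (i : ℤ) = j := by linarith
      exact_mod_cast this
    rw [abs_mul] at h4
    nlinarith [abs_nonneg x]
  calc g * u = ∑ _i ∈ range g, u := by rw [Finset.sum_const, Finset.card_range, smul_eq_mul]
    _ ≤ ∑ i ∈ range g, (Yi i).card := Finset.sum_le_sum hYi
    _ = ((range g).biUnion Yi).card := (Finset.card_biUnion hdisj).symm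
    _ ≤ Y.card := by
        apply Finset.card_le_card
        intro y hy
        obtain ⟨i, _, hi⟩ := Finset.mem_biUnion.mp hy
        exact (Finset.mem_filter.mp hi).1
    _ ≤ v * K := hY

/-- Balls with eventually periodic covering numbers grow at most exponentially. -/
theorem exp_bound (D : ℕ → Set ℤ) (K n₂ : ℕ) (hfin : ∀ n, (D n).Finite)
    (hgood : ∀ n ≥ n₂, Good (D n) K) (hmono : ∀ n, D n ⊆ D (n + 1))
    (hcov : ∀ n ≥ n₂, Cov (D (n + 1)) (D n) K)
    (hper : ∀ h v, ∃ p N₀, 0 < p ∧ ∀ n ≥ N₀,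
      (Cov (sm (D n) h) (D n) v ↔ Cov (sm (D (n + p)) h) (D (n + p)) v)) :
    ∃ C : ℕ, ∀ n, ∀ x ∈ D n, x.natAbs ≤ C ^ (n + 1) := by
  classical
  let F : ℕ → ℕ := fun n => (hfin n).toFinset.sup Int.natAbs
  have hF : ∀ n, ∀ x ∈ D n, x.natAbs ≤ F n := fun n x hx =>
    Finset.le_sup (f := Int.natAbs) ((hfin n).mem_toFinset.mpr hx)
  have hF' : ∀ n, ∀ x ∈ D n, |x| ≤ (F n : ℤ) := fun n x hx => by
    have := hF n x hx
    rw [Int.abs_eq_natAbs]
    exact_mod_cast this
  have hmono' : ∀ n m, n ≤ m → D n ⊆ D m := by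
    intro n m hnm
    induction m, hnm using Nat.le_induction with
    | base => exact subset_rfl
    | succ m _ ih => exact ih.trans (hmono m)
  -- the main claim
  have main : ∃ A m : ℕ, ∀ n ≥ m, ∀ x ∈ D (n + 1), x.natAbs ≤ A * F n := by
    by_contra hcon
    push Not at hcon
    have hK : 1 ≤ K := (hgood n₂ le_rfl).pos
    let N : ℕ → ℕ → ℕ := fun h n => sInf {k | Cov (sm (D n) h) (D n) k}
    have hbd : ∀ n ≥ n₂, ∀ h ≥ 1, Cov (sm (D n) h) (D n) ((6 * K * h + 1) ^ K) := by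
      intro n hn h hh
      have := cov_dil (hgood n hn) h 1 hh le_rfl
      rw [mul_one] at this
      refine Cov.mono ?_ le_rfl
      obtain ⟨Y, hY, hc⟩ := this
      refine ⟨Y, hY, fun e he => ?_⟩
      obtain ⟨y, hy, f, hf, h⟩ := hc e he
      exact ⟨y, hy, f, mem_sm_one.mp hf, h⟩
    have hmem : ∀ n ≥ n₂, ∀ h ≥ 1, Cov (sm (D n) h) (D n) (N h n) := fun n hn h hh =>
      Nat.sInf_mem (s := {k | Cov (sm (D n) h) (D n) k}) ⟨_, hbd n hn h hh⟩
    have hle : ∀ n h k, Cov (sm (D n) h) (D n) k → N h n ≤ k := fun n h k hk =>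
      Nat.sInf_le hk
    have hiff : ∀ n ≥ n₂, ∀ h ≥ 1, ∀ v, N h n ≤ v ↔ Cov (sm (D n) h) (D n) v :=
      fun n hn h hh v => ⟨fun hv => (hmem n hn h hh).mono hv, hle n h v⟩
    refine no_jump (fun h n => if h = 0 ∨ n < n₂ then 0 else N h n) K (CC K) n₂
      (fun h => (6 * K * h + 1) ^ K) hK (CC_pos K) ?_ ?_ ?_ ?_ ?_ ?_
    · intro n hn h hh
      have e : ¬ (h = 0 ∨ n < n₂) := by omega
      simp only [e, if_false]
      exact (hmem n hn h hh).pos ⟨0, zero_mem_sm (hgood n hn).zero h⟩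
    · intro n hn h hh m hm
      have e : ¬ (h = 0 ∨ n < n₂) := by omega
      have e' : ¬ (m = 0 ∨ n < n₂) := by omega
      have e'' : ¬ (h * m = 0 ∨ n < n₂) := by
        have := Nat.mul_pos hh hm
        omega
      simp only [e, e', e'', if_false]
      exact hle _ _ _ (cov_mul (hgood n hn) hh hm (hmem n hn h hh) (hmem n hn m hm))
    · intro n hn h hh
      have e : ¬ (h = 0 ∨ n < n₂) := by omega
      have e' : ¬ (h = 0 ∨ n + 1 < n₂) := by omega
      simp only [e, e', if_false]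
      refine hle _ _ _ ?_
      have h1 := ((hmem (n + 1) (by omega) h hh).trans (hcov n hn)).mono_left
        (sm_mono_left (hmono n) h)
      rwa [mul_comm] at h1
    · intro n hn h hh
      have e : ¬ (h = 0 ∨ n < n₂) := by omega
      simp only [e, if_false]
      exact hle _ _ _ (hbd n hn h hh)
    · intro h v
      rcases Nat.eq_zero_or_pos h with rfl | hh
      · exact ⟨1, 0, one_pos, fun n _ => by simp⟩
      · obtain ⟨p, N₀, hp, H⟩ := hper h v
        refine ⟨p, max N₀ n₂, hp, fun n hn => ?_⟩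
        have e1 : n ≥ N₀ := (le_max_left _ _).trans hn
        have e2 : n ≥ n₂ := (le_max_right _ _).trans hn
        have e : ¬ (h = 0 ∨ n < n₂) := by omega
        have e' : ¬ (h = 0 ∨ n + p < n₂) := by omega
        simp only [e, e', if_false]
        rw [hiff n e2 h hh v, hiff (n + p) (by omega) h hh v]
        exact H n e1
    · intro g hg m
      obtain ⟨n, hn, x, hx, hlt⟩ := hcon (2 * g + 2) (max m n₂)
      have e1 : n ≥ m := (le_max_left _ _).trans hn
      have e2 : n ≥ n₂ := (le_max_right _ _).trans hn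
      refine ⟨n, e1, ?_⟩
      have e : ¬ (g = 0 ∨ n < n₂) := by omega
      have e' : ¬ (2 * g = 0 ∨ n + 1 < n₂) := by omega
      simp only [e, e', if_false]
      have := jump (g := g) (hmono n) (hcov n e2) (hgood n e2).zero hx (hF' n)
        (by rw [Int.abs_eq_natAbs]; exact_mod_cast hlt)
        (hmem (n + 1) (by omega) (2 * g) (by omega)) (fun k hk => hle n g k hk)
      rwa [mul_comm (N (2 * g) (n + 1))] at this
  obtain ⟨A, m, hA⟩ := main
  have hFm : ∀ k, F (m + k) ≤ F m * A ^ k := by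
    intro k
    induction k with
    | zero => simp
    | succ k ih =>
      have h1 : F (m + k + 1) ≤ A * F (m + k) := by
        apply Finset.sup_le
        intro x hx
        exact hA (m + k) (by omega) x ((hfin _).mem_toFinset.mp hx)
      calc F (m + (k + 1)) ≤ A * F (m + k) := h1
        _ ≤ A * (F m * A ^ k) := Nat.mul_le_mul_left _ ih
        _ = F m * A ^ (k + 1) := by ring
  refine ⟨F m + A + 1, fun n x hx => ?_⟩
  rcases le_total n m with hnm | hnm
  · calc x.natAbs ≤ F m := hF m x (hmono' n m hnm hx)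
      _ ≤ (F m + A + 1) ^ 1 := by rw [pow_one]; omega
      _ ≤ (F m + A + 1) ^ (n + 1) := Nat.pow_le_pow_right (by omega) (by omega)
  · obtain ⟨k, rfl⟩ := Nat.exists_eq_add_of_le hnm
    calc x.natAbs ≤ F (m + k) := hF _ x hx
      _ ≤ F m * A ^ k := hFm k
      _ ≤ (F m + A + 1) * (F m + A + 1) ^ k :=
          Nat.mul_le_mul (by omega) (Nat.pow_le_pow_left (by omega) k)
      _ = (F m + A + 1) ^ (k + 1) := by ring
      _ ≤ (F m + A + 1) ^ (m + k + 1) := Nat.pow_le_pow_right (by omega) (by omega)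

end Pool.Agent.H20
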